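import Pool.Agent.R815.GR.Main

/-!
# The generating rank of the class-`c` part of a centre-by-`U` variety can go up

A variety is given by its verbal subgroup in the free group `F` of countable rank
(`Pool.Agent.R815.GR.Vty`).  For `U = B_7 ∧ A² ∧ N_4` (the metabelian groups of exponent dividing
`7` and class at most `4`) the variety `[U, E]` is generated by its free group of rank two, but
`N_4 ∧ [U, E]` is not.  So the answer to the question is negative (with `c = 4`, `k = 2`).
-/

set_option autoImplicit false

namespace Pool.Agent.Results.MP_215da1_al.RankTwoCounterexample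

open Pool.Agent.R815.GR

theorem result :
    (∃ U : Vty, U = meet (meet (Burn 7) Metab) (Nilp 4) ∧ Vty.Le U (Nilp 4) ∧
      varOf (relFree (comm U Triv) 2) = comm U Triv ∧
      varOf (relFree (meet (Nilp 4) (comm U Triv)) 2) ≠ meet (Nilp 4) (comm U Triv)) ∧
    ¬ ∀ c k : ℕ, 1 ≤ c → 1 ≤ k → ∀ U : Vty, Vty.Le U (Nilp c) →
      varOf (relFree (comm U Triv) k) = comm U Triv →
      varOf (relFree (meet (Nilp c) (comm U Triv)) k) = meet (Nilp c) (comm U Triv) :=
  ⟨⟨U0, rfl, main.1⟩, main.2⟩

end Pool.Agent.Results.MP_215da1_al.RankTwoCounterexample
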